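import Pool.Agent.L7h50.UC.Av

/-!
# Project UC, part MOM: second moments
-/

set_option autoImplicit false

namespace Pool.Agent.L7h50.UC

open Finset Pool.Agent.L7h38.UC

variable {d n k : ℕ}

/-- the deviation of the number of balls of colour `j` taken from urn `i` -/
noncomputable def Yd (k : ℕ) (c : Cf d n) (S : Fin d → Finset (Fin n)) : Fin d → Fin d → ℝ :=
  fun i j => (mf (c i) (S i) j : ℝ) - k / n * rl (cn c) i j

theorem rl_cn (c : Cf d n) (i j : Fin d) : rl (cn c) i j = ((#{p | c i p = j} : ℕ) : ℝ) := by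
  unfold rl cn
  push_cast
  rfl

theorem Yd_mean (hRES : S_RES) (hHYP : S_HYP) (hn : 1 ≤ n) (hk : k ≤ n) (c : Cf d n) (i j : Fin d) :
    av (Ch d n k) (fun S => Yd k c S i j) = 0 := by
  have h1 := (hHYP d n k hn hk (c i) j).1
  unfold Yd
  rw [av_sub, av_one hRES hk i (fun T => (mf (c i) T j : ℝ)), h1, av_const (Ch_nonempty hk), rl_cn, sub_self]

theorem Yd_var (hRES : S_RES) (hHYP : S_HYP) (hn : 1 ≤ n) (hk : k ≤ n) (c : Cf d n) (i j : Fin d) :
    av (Ch d n k) (fun S => Yd k c S i j ^ 2) ≤ n := by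
  have h1 := (hHYP d n k hn hk (c i) j).2.1
  unfold Yd
  rw [rl_cn, av_one hRES hk i (fun T => ((mf (c i) T j : ℝ) - k / n * ((#{p | c i p = j} : ℕ) : ℝ)) ^ 2)]
  exact h1

theorem nx_sub (σ : Equiv.Perm (Fin d)) (c : Cf d n) (S : Fin d → Finset (Fin n)) (i j : Fin d) :
    rl (nx σ c S) i j - ms (k / n) σ (rl (cn c)) i j = Yd k c S (σ⁻¹ i) j - Yd k c S i j := by
  unfold rl nx ms Yd rl
  push_cast
  ring

/-- one ring, followed by a contraction -/
theorem one_ring (hRES : S_RES) (hHYP : S_HYP) (hn : 1 ≤ n) (hk : k ≤ n) (σ : Equiv.Perm (Fin d))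
    (c : Cf d n) (w : List (Equiv.Perm (Fin d))) (z : Fin d → Fin d → ℝ) :
    av (Ch d n k) (fun S => nf2 (fun i j => mw (k / n) w (rl (nx σ c S)) i j - z i j)) ≤
      nf2 (fun i j => mw (k / n) w (ms (k / n) σ (rl (cn c))) i j - z i j) + 4 * d ^ 2 * n := by
  have hnR : (0 : ℝ) < n := by exact_mod_cast hn
  have hl0 : (0 : ℝ) ≤ (k : ℝ) / n := by positivity
  have hl1 : (k : ℝ) / n ≤ 1 := by
    rw [div_le_one hnR]
    exact_mod_cast hk
  obtain ⟨l, hl⟩ : ∃ l : ℝ, l = (k : ℝ) / n := ⟨_, rfl⟩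
  rw [← hl] at hl0 hl1 ⊢
  have hne := Ch_nonempty (d := d) hk
  have h1 : ∀ S, nf2 (fun i j => mw l w (rl (nx σ c S)) i j - z i j) =
      nf2 (fun i j => (mw l w (ms l σ (rl (cn c))) i j - z i j) +
        mw l w (fun i j => Yd k c S (σ⁻¹ i) j - Yd k c S i j) i j) := by
    intro S
    congr 1
    funext i j
    have h2 : (fun i j => Yd k c S (σ⁻¹ i) j - Yd k c S i j) =
        fun i j => rl (nx σ c S) i j - ms l σ (rl (cn c)) i j := by
      funext i j
      rw [hl, nx_sub]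
    rw [h2, mw_sub]
    ring
  rw [show (fun S => nf2 (fun i j => mw l w (rl (nx σ c S)) i j - z i j)) = _ from funext h1,
    av_nf2 hne]
  have h3 : ∀ i j, av (Ch d n k) (fun S => mw l w (fun i j => Yd k c S (σ⁻¹ i) j - Yd k c S i j) i j) = 0 := by
    intro i j
    have h4 := mw_av l w (Ch d n k) (fun S => fun i j => Yd k c S (σ⁻¹ i) j - Yd k c S i j)
    have h5 : (fun i j : Fin d => av (Ch d n k) fun S => Yd k c S (σ⁻¹ i) j - Yd k c S i j) =
        fun _ _ => 0 := by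
      funext i j
      rw [av_sub, Yd_mean hRES hHYP hn hk, Yd_mean hRES hHYP hn hk, sub_zero]
    rw [h5, mw_zero] at h4
    exact congrFun (congrFun h4 i) j
  have h6 : ∑ i, ∑ j, (mw l w (ms l σ (rl (cn c))) i j - z i j) *
      av (Ch d n k) (fun S => mw l w (fun i j => Yd k c S (σ⁻¹ i) j - Yd k c S i j) i j) = 0 :=
    sum_eq_zero fun i _ => sum_eq_zero fun j _ => by rw [h3, mul_zero]
  rw [h6, mul_zero, add_zero]
  have h7 : av (Ch d n k) (fun S => nf2 (mw l w (fun i j => Yd k c S (σ⁻¹ i) j - Yd k c S i j))) ≤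
      av (Ch d n k) (fun S => ∑ i, ∑ j, (2 * Yd k c S (σ⁻¹ i) j ^ 2 + 2 * Yd k c S i j ^ 2)) := by
    refine av_mono fun S _ => ?_
    refine (mw_nf2 hl0 hl1 w _).trans ?_
    unfold nf2
    refine sum_le_sum fun i _ => sum_le_sum fun j _ => ?_
    nlinarith [sq_nonneg (Yd k c S (σ⁻¹ i) j + Yd k c S i j)]
  have h8 : av (Ch d n k) (fun S => ∑ i, ∑ j, (2 * Yd k c S (σ⁻¹ i) j ^ 2 + 2 * Yd k c S i j ^ 2)) ≤
      ∑ _i : Fin d, ∑ _j : Fin d, (4 * (n : ℝ)) := by
    rw [av_sum]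
    refine sum_le_sum fun i _ => ?_
    rw [av_sum]
    refine sum_le_sum fun j _ => ?_
    rw [av_add, av_mul, av_mul]
    have h9 := Yd_var hRES hHYP hn hk c (σ⁻¹ i) j
    have h10 := Yd_var hRES hHYP hn hk c i j
    linarith
  have h11 : ∑ _i : Fin d, ∑ _j : Fin d, (4 * (n : ℝ)) = 4 * d ^ 2 * n := by
    rw [sum_const, sum_const, card_univ, Fintype.card_fin, nsmul_eq_mul, nsmul_eq_mul]
    ring
  linarith

/-- **MOM** -/
theorem s_MOM (hRES : S_RES) (hHYP : S_HYP) (hINV : S_INV) (hNXC : S_NXC) : S_MOM := by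
  intro d n k hn hk w
  induction w with
  | nil =>
    intro c z
    show nf2 (fun i j => rl (cn c) i j - z i j) ≤ nf2 (fun i j => rl (cn c) i j - z i j) + _
    simp
  | cons σ w ih =>
    intro c z
    rw [PW_cons, PM_cn hINV]
    unfold PL
    have h1 : av (Ch d n k) (fun S => PW n k w (fun B => nf2 (fun i j => rl B i j - z i j)) (nx σ c S)) ≤
        av (Ch d n k) (fun S => nf2 (fun i j => mw (k / n) w (rl (nx σ c S)) i j - z i j) +
          4 * d ^ 2 * n * w.length) := by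
      refine av_mono fun S hS => ?_
      obtain ⟨c', hc', -⟩ := hNXC d n k σ c S hS
      rw [← hc']
      exact ih c' z
    rw [av_add, av_const (Ch_nonempty hk)] at h1
    have h2 := one_ring hRES hHYP hn hk σ c w z
    have h3 : mw ((k : ℝ) / n) (σ :: w) (rl (cn c)) = mw ((k : ℝ) / n) w (ms ((k : ℝ) / n) σ (rl (cn c))) := rfl
    rw [h3, List.length_cons]
    push_cast
    linarith

end Pool.Agent.L7h50.UC
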