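import Pool.Agent.L7h38.UC.Stm

/-!
# Project UC, part QN: two marked balls meet
-/

set_option autoImplicit false

namespace Pool.Agent.L7h50.UC

open Finset Pool.Agent.L7h38.UC

variable {d : ℕ}

theorem EW_add (μ : Equiv.Perm (Fin d) → ℝ) (N : ℕ) : ∀ f g : List (Equiv.Perm (Fin d)) → ℝ,
    EW μ N (fun w => f w + g w) = EW μ N f + EW μ N g := by
  induction N with
  | zero => intro f g; rfl
  | succ N ih =>
    intro f g
    show ∑ σ, μ σ * EW μ N (fun w => f (σ :: w) + g (σ :: w)) =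
      (∑ σ, μ σ * EW μ N (fun w => f (σ :: w))) + ∑ σ, μ σ * EW μ N (fun w => g (σ :: w))
    rw [← sum_add_distrib]
    refine sum_congr rfl fun σ _ => ?_
    rw [ih]
    ring

theorem EW_mul (μ : Equiv.Perm (Fin d) → ℝ) (a : ℝ) (N : ℕ) : ∀ f : List (Equiv.Perm (Fin d)) → ℝ,
    EW μ N (fun w => a * f w) = a * EW μ N f := by
  induction N with
  | zero => intro f; rfl
  | succ N ih =>
    intro f
    show ∑ σ, μ σ * EW μ N (fun w => a * f (σ :: w)) = a * ∑ σ, μ σ * EW μ N (fun w => f (σ :: w))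
    rw [mul_sum]
    refine sum_congr rfl fun σ _ => ?_
    rw [ih]
    ring

theorem EW_zero (μ : Equiv.Perm (Fin d) → ℝ) (N : ℕ) : EW μ N (fun _ => (0 : ℝ)) = 0 := by
  have h := EW_mul μ 0 N (fun _ => (0 : ℝ))
  simpa using h

/-- a path of length `m` -/
def Path (μ : Equiv.Perm (Fin d) → ℝ) : ℕ → Fin d → Fin d → Prop
  | 0, x, y => x = y
  | m + 1, x, y => ∃ σ, 0 < μ σ ∧ Path μ m (σ x) y

theorem exists_path {μ : Equiv.Perm (Fin d) → ℝ} (h : Irr μ) (x y : Fin d) : ∃ m, Path μ m x y := by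
  induction h x y using Relation.ReflTransGen.head_induction_on with
  | refl => exact ⟨0, rfl⟩
  | head hab _ ih =>
    obtain ⟨m, hm⟩ := ih
    obtain ⟨σ, h1, h2⟩ := hab
    exact ⟨m + 1, σ, h1, by rw [h2]; exact hm⟩

/-- a distance: it is positive outside the diagonal and some step makes it smaller -/
theorem exists_dist {μ : Equiv.Perm (Fin d) → ℝ} (h : Irr μ) : ∃ m : Fin d → Fin d → ℕ,
    ∀ x y, x ≠ y → 1 ≤ m x y ∧ ∃ σ, 0 < μ σ ∧ m (σ x) y ≤ m x y - 1 := by
  classical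
  refine ⟨fun x y => Nat.find (exists_path h x y), fun x y hxy => ?_⟩
  dsimp only
  have h1 := Nat.find_spec (exists_path h x y)
  obtain ⟨m, hm⟩ : ∃ m, m = Nat.find (exists_path h x y) := ⟨_, rfl⟩
  rw [← hm] at h1 ⊢
  cases m with
  | zero => exact absurd h1 hxy
  | succ m =>
    obtain ⟨σ, h2, h3⟩ := h1
    exact ⟨by omega, σ, h2, Nat.find_min' _ h3⟩

theorem exists_min {μ : Equiv.Perm (Fin d) → ℝ} : ∃ δ : ℝ, 0 < δ ∧ ∀ σ, 0 < μ σ → δ ≤ μ σ := by
  classical
  rcases (univ.filter fun σ => 0 < μ σ).eq_empty_or_nonempty with h | h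
  · refine ⟨1, one_pos, fun σ hσ => ?_⟩
    have : σ ∈ (univ.filter fun σ => 0 < μ σ) := by simpa using hσ
    rw [h] at this
    simp at this
  · obtain ⟨τ, h1, h2⟩ := exists_min_image _ μ h
    refine ⟨μ τ, by simpa using h1, fun σ hσ => h2 σ (by simpa using hσ)⟩

/-- the Lyapunov function -/
theorem exists_lyap {μ : Equiv.Perm (Fin d) → ℝ} (hμ : Pr μ) (hI : Irr μ) {c : ℝ} (hc : 0 < c) :
    ∃ (ρ : ℝ) (h : Fin d → Fin d → ℝ), 0 < ρ ∧ ρ < 1 ∧ (∀ i i', off i i' ≤ h i i') ∧ (∀ i i', h i i' ≤ 2) ∧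
      (∀ i, h i i = 0) ∧ ∀ l : ℝ, c ≤ l → l ≤ 1 - c → ∀ i i', i ≠ i' →
        ∑ σ, μ σ * ((1 - l) ^ 2 * h i i' + l * (1 - l) * h (σ i) i' + (1 - l) * l * h i (σ i') +
          l ^ 2 * h (σ i) (σ i')) ≤ ρ * h i i' := by
  classical
  obtain ⟨m, hm⟩ := exists_dist hI
  obtain ⟨δ0, hδ0, hδ⟩ := exists_min (μ := μ)
  obtain ⟨ε, hε⟩ : ∃ ε : ℝ, ε = min (c ^ 2 * δ0 / 2) (1 / 2) := ⟨_, rfl⟩
  have hε0 : 0 < ε := by rw [hε]; positivity
  have hε1 : ε ≤ 1 / 2 := by rw [hε]; exact min_le_right _ _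
  have hε2 : 2 * ε ≤ c ^ 2 * δ0 := by
    have : ε ≤ c ^ 2 * δ0 / 2 := by rw [hε]; exact min_le_left _ _
    linarith
  obtain ⟨M, hM⟩ : ∃ M : ℕ, M = ∑ x, ∑ y, m x y := ⟨_, rfl⟩
  have hmM : ∀ x y, m x y ≤ M := by
    intro x y
    rw [hM]
    exact (single_le_sum (f := fun y => m x y) (fun _ _ => Nat.zero_le _) (mem_univ y)).trans
      (single_le_sum (f := fun x => ∑ y, m x y) (fun _ _ => Nat.zero_le _) (mem_univ x))
  have hp1 : ∀ j : ℕ, ε ^ j ≤ 1 := fun j => pow_le_one₀ hε0.le (by linarith)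
  have hp0 : ∀ j : ℕ, 0 < ε ^ j := fun j => pow_pos hε0 j
  obtain ⟨h, hh⟩ : ∃ h : Fin d → Fin d → ℝ, h = fun i i' => if i = i' then 0 else 2 - ε ^ m i' i :=
    ⟨_, rfl⟩
  have hh2 : ∀ i i', h i i' ≤ 2 := by
    intro i i'
    rw [hh]
    dsimp only
    split_ifs
    · norm_num
    · linarith [hp0 (m i' i)]
  have hh0 : ∀ i i', 0 ≤ h i i' := by
    intro i i'
    rw [hh]
    dsimp only
    split_ifs
    · exact le_rfl
    · linarith [hp1 (m i' i)]
  refine ⟨1 - ε ^ M / 2, h, by linarith [hp1 M], by linarith [hp0 M], ?_, hh2, ?_, ?_⟩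
  · intro i i'
    rw [hh]
    unfold off
    dsimp only
    split_ifs
    · exact le_rfl
    · linarith [hp1 (m i' i)]
  · intro i
    rw [hh]
    simp
  · intro l hl0 hl1 i i' hii
    have hl : 0 ≤ l := by linarith
    have hl' : 0 ≤ 1 - l := by linarith
    obtain ⟨h1, σ, hσ, hσ2⟩ := hm i' i (Ne.symm hii)
    have hstep : h i (σ i') ≤ 2 - ε ^ (m i' i - 1) := by
      have h3 : ε ^ (m i' i - 1) ≤ ε ^ m (σ i') i := pow_le_pow_of_le_one hε0.le (by linarith) hσ2
      rw [hh]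
      dsimp only
      split_ifs
      · linarith [hp1 (m i' i - 1)]
      · linarith
    have hsum : ∑ τ, μ τ * ((1 - l) ^ 2 * h i i' + l * (1 - l) * h (τ i) i' + (1 - l) * l * h i (τ i') +
        l ^ 2 * h (τ i) (τ i')) ≤ ∑ τ, (2 * μ τ - (1 - l) * l * (μ τ * (2 - h i (τ i')))) := by
      refine sum_le_sum fun τ _ => ?_
      have a1 : (1 - l) ^ 2 * h i i' ≤ (1 - l) ^ 2 * 2 := mul_le_mul_of_nonneg_left (hh2 _ _) (sq_nonneg _)
      have a2 : l * (1 - l) * h (τ i) i' ≤ l * (1 - l) * 2 :=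
        mul_le_mul_of_nonneg_left (hh2 _ _) (mul_nonneg hl hl')
      have a3 : l ^ 2 * h (τ i) (τ i') ≤ l ^ 2 * 2 := mul_le_mul_of_nonneg_left (hh2 _ _) (sq_nonneg _)
      have a4 : (1 - l) ^ 2 * h i i' + l * (1 - l) * h (τ i) i' + (1 - l) * l * h i (τ i') +
          l ^ 2 * h (τ i) (τ i') ≤ 2 - (1 - l) * l * (2 - h i (τ i')) := by
        nlinarith
      have a5 := mul_le_mul_of_nonneg_left a4 (hμ.1 τ)
      refine a5.trans (le_of_eq ?_)
      ring
    rw [sum_sub_distrib, ← mul_sum, hμ.2, ← mul_sum] at hsum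
    have hs2 : μ σ * (2 - h i (σ i')) ≤ ∑ τ, μ τ * (2 - h i (τ i')) :=
      single_le_sum (f := fun τ => μ τ * (2 - h i (τ i')))
        (fun τ _ => mul_nonneg (hμ.1 τ) (by linarith [hh2 i (τ i')])) (mem_univ σ)
    have hs3 : δ0 * ε ^ (m i' i - 1) ≤ μ σ * (2 - h i (σ i')) :=
      mul_le_mul (hδ σ hσ) (by linarith) (hp0 _).le (hμ.1 σ)
    have hcl : c ^ 2 ≤ (1 - l) * l := by nlinarith
    have hs4 : c ^ 2 * (δ0 * ε ^ (m i' i - 1)) ≤ (1 - l) * l * ∑ τ, μ τ * (2 - h i (τ i')) :=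
      mul_le_mul hcl (hs3.trans hs2) (by positivity) (mul_nonneg hl' hl)
    have hs5 : 2 * ε ^ m i' i ≤ c ^ 2 * (δ0 * ε ^ (m i' i - 1)) := by
      have e1 : ε ^ m i' i = ε * ε ^ (m i' i - 1) := by
        rw [← pow_succ']
        congr 1
        omega
      rw [e1]
      have e2 := mul_le_mul_of_nonneg_right hε2 (hp0 (m i' i - 1)).le
      linarith
    have hhi : h i i' = 2 - ε ^ m i' i := by
      rw [hh]
      dsimp only
      rw [if_neg hii]
    rw [hhi] at hsum ⊢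
    have hs6 : ε ^ M ≤ ε ^ m i' i := pow_le_pow_of_le_one hε0.le (by linarith) (hmM _ _)
    have hs7 : 0 ≤ ε ^ M * ε ^ m i' i := mul_nonneg (hp0 _).le (hp0 _).le
    refine hsum.trans ?_
    nlinarith

/-- **QN** -/
theorem s_QN : S_QN := by
  intro d μ hμ hI c hc
  obtain ⟨ρ, h, hρ0, hρ1, hoff, hh2, hh0, hT⟩ := exists_lyap hμ hI hc
  refine ⟨2, ρ, by norm_num, hρ0, hρ1, fun l hl0 hl1 => ?_⟩
  have hl : 0 ≤ l := by linarith
  have hl' : 0 ≤ 1 - l := by linarith
  have main : ∀ (N : ℕ) (i i' : Fin d), EW μ N (fun w => QW l w off i i') ≤ ρ ^ N * h i i' := by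
    intro N
    induction N with
    | zero =>
      intro i i'
      show off i i' ≤ _
      rw [pow_zero, one_mul]
      exact hoff i i'
    | succ N ih =>
      intro i i'
      show ∑ σ, μ σ * EW μ N (fun w => q l σ (QW l w off) i i') ≤ _
      by_cases hii : i = i'
      · rw [hii, hh0, mul_zero]
        refine le_of_eq (sum_eq_zero fun σ _ => ?_)
        have e1 : (fun w => q l σ (QW l w off) i' i') = fun _ => (0 : ℝ) := by
          funext w
          unfold q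
          rw [if_pos rfl]
        rw [e1, EW_zero, mul_zero]
      · have e1 : ∀ σ : Equiv.Perm (Fin d), EW μ N (fun w => q l σ (QW l w off) i i') =
            (1 - l) ^ 2 * EW μ N (fun w => QW l w off i i') +
              l * (1 - l) * EW μ N (fun w => QW l w off (σ i) i') +
              (1 - l) * l * EW μ N (fun w => QW l w off i (σ i')) +
              l ^ 2 * EW μ N (fun w => QW l w off (σ i) (σ i')) := by
          intro σ
          have e2 : (fun w => q l σ (QW l w off) i i') = fun w =>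
              (1 - l) ^ 2 * QW l w off i i' + l * (1 - l) * QW l w off (σ i) i' +
                (1 - l) * l * QW l w off i (σ i') + l ^ 2 * QW l w off (σ i) (σ i') := by
            funext w
            unfold q
            rw [if_neg hii]
          rw [e2, EW_add, EW_add, EW_add, EW_mul, EW_mul, EW_mul, EW_mul]
        have h1 : ∑ σ, μ σ * EW μ N (fun w => q l σ (QW l w off) i i') ≤
            ∑ σ, ρ ^ N * (μ σ * ((1 - l) ^ 2 * h i i' + l * (1 - l) * h (σ i) i' +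
              (1 - l) * l * h i (σ i') + l ^ 2 * h (σ i) (σ i'))) := by
          refine sum_le_sum fun σ _ => ?_
          rw [e1 σ]
          have a1 := mul_le_mul_of_nonneg_left (ih i i') (sq_nonneg (1 - l))
          have a2 := mul_le_mul_of_nonneg_left (ih (σ i) i') (mul_nonneg hl hl')
          have a3 := mul_le_mul_of_nonneg_left (ih i (σ i')) (mul_nonneg hl' hl)
          have a4 := mul_le_mul_of_nonneg_left (ih (σ i) (σ i')) (sq_nonneg l)
          have a5 := mul_le_mul_of_nonneg_left (add_le_add (add_le_add (add_le_add a1 a2) a3) a4) (hμ.1 σ)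
          refine a5.trans (le_of_eq ?_)
          ring
        rw [← mul_sum] at h1
        refine h1.trans ((mul_le_mul_of_nonneg_left (hT l hl0 hl1 i i' hii) (pow_nonneg hρ0.le N)).trans
          (le_of_eq ?_))
        ring
  intro N i i'
  refine (main N i i').trans ?_
  have h1 := mul_le_mul_of_nonneg_left (hh2 i i') (pow_nonneg hρ0.le N)
  linarith

end Pool.Agent.L7h50.UC
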