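import Pool.Agent.L7h50.UC.Av
import Pool.Agent.L7h96.UC.Swp

/-!
# Project UC, part SMO: smoothing
-/

set_option autoImplicit false

namespace Pool.Agent.L7h50.UC

open Finset Pool.Agent.L7h38.UC

variable {d n k : ℕ}

theorem shift_urn (A : Mt d) (a b i : Fin d) : shift A a b i i = A := by
  funext x j
  unfold shift
  ring

theorem shift_col (A : Mt d) (a i i' : Fin d) : shift A a a i i' = A := by
  funext x j
  unfold shift
  ring

theorem nf2_add_le (a b : Fin d → Fin d → ℝ) :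
    nf2 (fun i j => a i j + b i j) ≤ 2 * nf2 a + 2 * nf2 b := by
  unfold nf2
  rw [mul_sum, mul_sum, ← sum_add_distrib]
  refine sum_le_sum fun i _ => ?_
  rw [mul_sum, mul_sum, ← sum_add_distrib]
  refine sum_le_sum fun j _ => ?_
  nlinarith [sq_nonneg (a i j - b i j)]

theorem le_nf2 (a : Fin d → Fin d → ℝ) (i j : Fin d) : a i j ^ 2 ≤ nf2 a := by
  unfold nf2
  calc a i j ^ 2 ≤ ∑ j, a i j ^ 2 :=
        single_le_sum (f := fun j => a i j ^ 2) (fun _ _ => sq_nonneg _) (mem_univ j)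
    _ ≤ ∑ i, ∑ j, a i j ^ 2 :=
        single_le_sum (f := fun i => ∑ j, a i j ^ 2) (fun _ _ => sum_nonneg fun _ _ => sq_nonneg _)
          (mem_univ i)

open Classical in
/-- far from the centre -/
noncomputable def bad (d n : ℕ) (B : Mt d) : ℝ :=
  if nf2 (fun x y => rl B x y - n / d) ≤ ((n : ℝ) / (2 * d)) ^ 2 then 0 else 1

theorem bad_nonneg (B : Mt d) : 0 ≤ bad d n B := by
  unfold bad
  split_ifs <;> norm_num

/-- the error -/
noncomputable def HH (d n k : ℕ) (C : ℝ) (w : List (Equiv.Perm (Fin d))) (A : Mt d) : ℝ :=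
  w.length * C + 2 * ∑ j ∈ range (w.length + 1), PW n k (w.take j) (bad d n) A

theorem PW_nonneg (hPWB : S_PWB) (hk : k ≤ n) {G : Mt d → ℝ} (hG : ∀ A, 0 ≤ G A)
    (w : List (Equiv.Perm (Fin d))) {c : Cf d n} (hc : Bal c) : 0 ≤ PW n k w G (cn c) := by
  have h1 := hPWB.1 d n k hk w (fun _ => 0) G (fun c _ => hG _) c hc
  rwa [hPWB.2.2.1 d n k hk w 0 c] at h1

theorem HH_ge (hPWB : S_PWB) (hk : k ≤ n) {C : ℝ} (hC : 0 ≤ C) (w : List (Equiv.Perm (Fin d)))
    {c : Cf d n} (hc : Bal c) : 2 * bad d n (cn c) ≤ HH d n k C w (cn c) := by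
  unfold HH
  rw [sum_range_succ']
  have h1 : 0 ≤ ∑ j ∈ range w.length, PW n k (w.take (j + 1)) (bad d n) (cn c) :=
    sum_nonneg fun j _ => PW_nonneg hPWB hk (fun A => bad_nonneg A) _ hc
  have h2 : PW n k (w.take 0) (bad d n) (cn c) = bad d n (cn c) := rfl
  rw [h2]
  have h3 : 0 ≤ (w.length : ℝ) * C := by positivity
  linarith

theorem HH_cons (hINV : S_INV) (hk : k ≤ n) (C : ℝ) (σ : Equiv.Perm (Fin d))
    (w : List (Equiv.Perm (Fin d))) (c : Cf d n) :
    HH d n k C (σ :: w) (cn c) =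
      C + 2 * bad d n (cn c) + av (Ch d n k) (fun S => HH d n k C w (nx σ c S)) := by
  unfold HH
  rw [List.length_cons, sum_range_succ']
  have h2 : PW n k ((σ :: w).take 0) (bad d n) (cn c) = bad d n (cn c) := rfl
  have h3 : ∀ j, PW n k ((σ :: w).take (j + 1)) (bad d n) (cn c) =
      av (Ch d n k) (fun S => PW n k (w.take j) (bad d n) (nx σ c S)) := by
    intro j
    rw [List.take_succ_cons, PW_cons, PM_cn hINV]
    rfl
  rw [h2, sum_congr rfl fun j _ => h3 j, av_add, av_const (Ch_nonempty hk), av_mul, av_sum]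
  push_cast
  ring

/-- in the good region all entries are large -/
theorem entry_of_good {B : Mt d} (h : nf2 (fun x y => rl B x y - n / d) ≤ ((n : ℝ) / (2 * d)) ^ 2)
    (hd : 1 ≤ d) (x y : Fin d) : (n : ℝ) / (2 * d) ≤ (B x y : ℝ) := by
  have h1 := (le_nf2 (fun x y => rl B x y - n / d) x y).trans h
  have hdR : (0 : ℝ) < d := by exact_mod_cast hd
  have h2 : (0 : ℝ) ≤ (n : ℝ) / (2 * d) := by positivity
  have h3 := abs_le_of_sq_le_sq' h1 h2
  have h4 : (n : ℝ) / d = (n : ℝ) / (2 * d) + (n : ℝ) / (2 * d) := by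
    field_simp
    ring
  unfold rl at h3
  rw [h4] at h3
  linarith [h3.1]

/-- the induction -/
theorem smo_ind (hPWB : S_PWB) (hINV : S_INV) (hNXC : S_NXC) (hn : 1 ≤ n) (hk : k ≤ n) (hd : 1 ≤ d)
    {c1 C : ℝ} (hc1 : c1 ≤ 1 / (2 * d)) (hC : 0 ≤ C)
    (hT : ∀ (σ : Equiv.Perm (Fin d)) (c c' : Cf d n) (i i' a b e e' : Fin d) (F : Mt d → ℝ), i ≠ i' →
      a ≠ b → cn c' = shift (cn c) a b i i' → (∀ A, |F A| ≤ 1) →
      (∀ x y, c1 * n ≤ (cn c x y : ℝ)) → (e = i ∨ e = σ i) → (e' = i' ∨ e' = σ i') →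
      |PL k σ F c' - PL k σ (fun B => F (shift B a b e e')) c| ≤ C)
    {F : Mt d → ℝ} (hF : ∀ A, |F A| ≤ 1) (w : List (Equiv.Perm (Fin d))) :
    ∀ (c : Cf d n), Bal c → ∀ (i i' a b : Fin d), reach w i' i →
      |PW n k w F (shift (cn c) a b i i') - PW n k w F (cn c)| ≤ HH d n k C w (cn c) := by
  induction w with
  | nil =>
    intro c hc i i' a b hr
    have hr' : i' = i := hr
    rw [hr', shift_urn, sub_self, abs_zero]
    have h1 := HH_ge hPWB hk hC ([] : List (Equiv.Perm (Fin d))) hc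
    have h2 := bad_nonneg (n := n) (cn c)
    linarith
  | cons σ w ih =>
    intro c hc i i' a b hr
    have hge := HH_ge hPWB hk hC (σ :: w) hc
    have hb0 := bad_nonneg (n := n) (cn c)
    by_cases hi : i = i'
    · rw [hi, shift_urn, sub_self, abs_zero]
      linarith
    by_cases hab : a = b
    · rw [hab, shift_col, sub_self, abs_zero]
      linarith
    by_cases hgood : nf2 (fun x y => rl (cn c) x y - n / d) ≤ ((n : ℝ) / (2 * d)) ^ 2
    · -- the good region
      have hent := entry_of_good hgood hd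
      have hdR : (0 : ℝ) < d := by exact_mod_cast hd
      have hnR : (0 : ℝ) < n := by exact_mod_cast hn
      have hpos : (0 : ℝ) < (n : ℝ) / (2 * d) := by positivity
      have hex : ∀ x y : Fin d, ∃ p : Fin n, c x p = y := by
        intro x y
        by_contra hno
        push Not at hno
        have h0 : cn c x y = 0 := by
          unfold cn
          rw [Finset.filter_false_of_mem (fun p _ => hno p)]
          rfl
        have h1 := hent x y
        rw [h0] at h1
        push_cast at h1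
        linarith
      obtain ⟨p, hp⟩ := hex i a
      obtain ⟨p', hp'⟩ := hex i' b
      obtain ⟨c', hc'⟩ : ∃ c' : Cf d n, cn c' = shift (cn c) a b i i' :=
        ⟨_, Pool.Agent.L7h96.UC.cn_exch c i i' a b hi p p' hp hp'⟩
      obtain ⟨e', he', hr'⟩ : ∃ e', (e' = i' ∨ e' = σ i') ∧ reach w e' i := by
        rcases hr with hr | hr
        · exact ⟨i', Or.inl rfl, hr⟩
        · exact ⟨σ i', Or.inr rfl, hr⟩
      have hF' : ∀ A, |PW n k w F A| ≤ 1 := hPWB.2.2.2.1 d n k w F 1 hF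
      have h1 := hT σ c c' i i' a b i e' (PW n k w F) hi hab hc' hF' (fun x y => by
        have h2 := hent x y
        have h3 : c1 * n ≤ 1 / (2 * d) * n := mul_le_mul_of_nonneg_right hc1 hnR.le
        have h4 : (1 : ℝ) / (2 * d) * n = (n : ℝ) / (2 * d) := by ring
        linarith) (Or.inl rfl) he'
      rw [← hc', PW_cons, PM_cn hINV, PM_cn hINV, HH_cons hINV hk]
      have h5 : |PL k σ (fun B => PW n k w F (shift B a b i e')) c - PL k σ (PW n k w F) c| ≤
          av (Ch d n k) (fun S => HH d n k C w (nx σ c S)) := by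
        unfold PL
        rw [← av_sub]
        refine (av_abs _ _).trans (av_mono fun S hS => ?_)
        obtain ⟨c'', hc'', hB⟩ := hNXC d n k σ c S hS
        rw [← hc'']
        exact ih c'' (hB hc) i e' a b hr'
      have h6 := abs_sub_le (PL k σ (PW n k w F) c') (PL k σ (fun B => PW n k w F (shift B a b i e')) c)
        (PL k σ (PW n k w F) c)
      linarith
    · -- the bad region
      have h1 : bad d n (cn c) = 1 := by
        unfold bad
        rw [if_neg hgood]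
      have h2 := hPWB.2.2.2.1 d n k (σ :: w) F 1 hF (shift (cn c) a b i i')
      have h3 := hPWB.2.2.2.1 d n k (σ :: w) F 1 hF (cn c)
      have h4 := abs_sub (PW n k (σ :: w) F (shift (cn c) a b i i')) (PW n k (σ :: w) F (cn c))
      rw [h1] at hge
      linarith

/-- the probability of the bad region -/
theorem PW_bad (hPWB : S_PWB) (hMOM : S_MOM) (hn : 1 ≤ n) (hk : k ≤ n) (hd : 1 ≤ d)
    (v : List (Equiv.Perm (Fin d))) {c : Cf d n} (hc : Bal c)
    (h : nf2 (fun x y => rl (cn c) x y - n / d) ≤ ((n : ℝ) / (4 * d)) ^ 2) :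
    PW n k v (bad d n) (cn c) ≤ 64 * d ^ 4 * v.length / n := by
  have hdR : (0 : ℝ) < d := by exact_mod_cast hd
  have hnR : (0 : ℝ) < n := by exact_mod_cast hn
  have hl0 : (0 : ℝ) ≤ (k : ℝ) / n := by positivity
  have hl1 : (k : ℝ) / n ≤ 1 := by
    rw [div_le_one hnR]
    exact_mod_cast hk
  obtain ⟨z, hz⟩ : ∃ z : Fin d → Fin d → ℝ, z = mw ((k : ℝ) / n) v (rl (cn c)) := ⟨_, rfl⟩
  have hz1 : nf2 (fun x y => z x y - n / d) ≤ ((n : ℝ) / (4 * d)) ^ 2 := by
    refine le_trans ?_ h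
    have h1 := mw_sub ((k : ℝ) / n) v (rl (cn c)) (fun _ _ => (n : ℝ) / d)
    rw [mw_cst, ← hz] at h1
    rw [← h1]
    exact mw_nf2 hl0 hl1 v _
  have hbad : ∀ B : Mt d, bad d n B ≤ (4 * d / n) ^ 2 * nf2 (fun i j => rl B i j - z i j) := by
    intro B
    by_cases hB : nf2 (fun x y => rl B x y - n / d) ≤ ((n : ℝ) / (2 * d)) ^ 2
    · unfold bad
      rw [if_pos hB]
      exact mul_nonneg (sq_nonneg _) (nf2_nonneg _)
    · unfold bad
      rw [if_neg hB]
      push Not at hB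
      have h2 := nf2_add_le (fun i j => rl B i j - z i j) (fun i j => z i j - n / d)
      have h3 : (fun i j => (rl B i j - z i j) + (z i j - n / d)) = fun i j => rl B i j - (n : ℝ) / d := by
        funext i j
        ring
      rw [h3] at h2
      have h4 : ((n : ℝ) / (2 * d)) ^ 2 = 4 * ((n : ℝ) / (4 * d)) ^ 2 := by
        field_simp
        ring
      have h5 : ((n : ℝ) / (4 * d)) ^ 2 ≤ nf2 (fun i j => rl B i j - z i j) := by linarith
      have h6 : (4 * (d : ℝ) / n) ^ 2 * ((n : ℝ) / (4 * d)) ^ 2 = 1 := by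
        field_simp
      rw [← h6]
      exact mul_le_mul_of_nonneg_left h5 (sq_nonneg _)
  have h1 := hPWB.1 d n k hk v (bad d n)
    (fun B => (4 * d / n) ^ 2 * nf2 (fun i j => rl B i j - z i j)) (fun c _ => hbad _) c hc
  have h2 := hPWB.2.1 d n k v (fun B => nf2 (fun i j => rl B i j - z i j)) (fun _ => 0)
    ((4 * d / n) ^ 2) 0 (cn c)
  have h3 : (fun B : Mt d => (4 * (d : ℝ) / n) ^ 2 * nf2 (fun i j => rl B i j - z i j) + 0 * 0) =
      fun B => (4 * (d : ℝ) / n) ^ 2 * nf2 (fun i j => rl B i j - z i j) := by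
    funext B
    ring
  rw [h3, zero_mul, add_zero] at h2
  rw [h2] at h1
  have h4 := hMOM d n k hn hk v c z
  rw [← hz] at h4
  have h5 : nf2 (fun i j => z i j - z i j) = 0 := by
    unfold nf2
    simp
  rw [h5, zero_add] at h4
  refine h1.trans ((mul_le_mul_of_nonneg_left h4 (sq_nonneg _)).trans (le_of_eq ?_))
  field_simp
  ring

/-- **SMO** -/
theorem s_SMO (hTRA : S_TRA) (hMOM : S_MOM) (hPWB : S_PWB) (hINV : S_INV) (hNXC : S_NXC) : S_SMO := by
  intro d hd c0 hc0
  have hd1 : 1 ≤ d := by omega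
  have hdR : (0 : ℝ) < d := by exact_mod_cast hd1
  obtain ⟨C, hC, hT⟩ := hTRA (min c0 (1 / (2 * d))) (lt_min hc0 (by positivity))
  refine ⟨C + 128 * d ^ 4, by positivity, ?_⟩
  intro n k hn hk1 hk2 w F hF c c' i i' a b hc hc' hs hr hnf
  have hnR : (0 : ℝ) < n := by exact_mod_cast hn
  have hk : k ≤ n := by
    have h1 : (k : ℝ) ≤ n := by nlinarith
    exact_mod_cast h1
  have hm1 : min c0 (1 / (2 * d)) * n ≤ c0 * n := mul_le_mul_of_nonneg_right (min_le_left _ _) hnR.le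
  have hsq : 0 < Real.sqrt n := Real.sqrt_pos.2 hnR
  have h1 := smo_ind (F := F) hPWB hINV hNXC hn hk hd1 (c1 := min c0 (1 / (2 * d))) (C := C / Real.sqrt n)
    (min_le_right _ _) (by positivity)
    (fun σ c c' i i' a b e e' F h1 h2 h3 h4 h5 h6 h7 =>
      hT d n k σ c c' i i' a b e e' F h1 h2 h3 h4 (by linarith) (by linarith) h5 h6 h7) hF w c hc i i'
    a b hr
  rw [← hs] at h1
  refine h1.trans ?_
  unfold HH
  have h2 : ∑ j ∈ range (w.length + 1), PW n k (w.take j) (bad d n) (cn c) ≤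
      ∑ _j ∈ range (w.length + 1), 64 * (d : ℝ) ^ 4 * w.length / n := by
    refine sum_le_sum fun j _ => ?_
    refine (PW_bad hPWB hMOM hn hk hd1 _ hc hnf).trans ?_
    have h3 : ((w.take j).length : ℝ) ≤ w.length := by
      exact_mod_cast List.length_take_le' j w
    gcongr
  rw [sum_const, card_range, nsmul_eq_mul] at h2
  push_cast at h2
  obtain ⟨L, hL⟩ : ∃ L : ℝ, L = w.length := ⟨_, rfl⟩
  rw [← hL] at h2 ⊢
  have hL0 : 0 ≤ L := by rw [hL]; positivity
  have hinv : (1 : ℝ) / n ≤ 1 / Real.sqrt n := by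
    apply one_div_le_one_div_of_le hsq
    rw [Real.sqrt_le_left hnR.le]
    have : (1 : ℝ) ≤ n := by exact_mod_cast hn
    nlinarith
  have h4 : (L + 1) * (64 * (d : ℝ) ^ 4 * L / n) ≤ 64 * d ^ 4 * (L + 1) ^ 2 * (1 / Real.sqrt n) := by
    have e1 : (L + 1) * (64 * (d : ℝ) ^ 4 * L / n) = 64 * d ^ 4 * ((L + 1) * L) * (1 / n) := by ring
    rw [e1]
    have e2 : (L + 1) * L ≤ (L + 1) ^ 2 := by nlinarith
    calc 64 * (d : ℝ) ^ 4 * ((L + 1) * L) * (1 / n) ≤ 64 * d ^ 4 * (L + 1) ^ 2 * (1 / n) := by gcongr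
      _ ≤ 64 * d ^ 4 * (L + 1) ^ 2 * (1 / Real.sqrt n) := by gcongr
  have h5 : L * (C / Real.sqrt n) ≤ C * (L + 1) ^ 2 * (1 / Real.sqrt n) := by
    have e1 : L * (C / Real.sqrt n) = C * L * (1 / Real.sqrt n) := by ring
    rw [e1]
    have e2 : L ≤ (L + 1) ^ 2 := by nlinarith
    gcongr
  have e3 : (C + 128 * (d : ℝ) ^ 4) * (L + 1) ^ 2 / Real.sqrt n =
      C * (L + 1) ^ 2 * (1 / Real.sqrt n) + 2 * (64 * d ^ 4 * (L + 1) ^ 2 * (1 / Real.sqrt n)) := by
    ring
  rw [e3]
  linarith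

end Pool.Agent.L7h50.UC
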