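import Pool.Agent.L7h38.UC.Stm

/-!
# Project UC: rules for averages, the matrices `mw`, one ring
-/

set_option autoImplicit false

namespace Pool.Agent.L7h50.UC

open Finset Pool.Agent.L7h38.UC

variable {ι : Type}

theorem av_const {s : Finset ι} (hs : s.Nonempty) (x : ℝ) : av s (fun _ => x) = x := by
  unfold av
  rw [sum_const, nsmul_eq_mul]
  have : (s.card : ℝ) ≠ 0 := by
    have := card_pos.2 hs
    positivity
  field_simp

theorem av_add (s : Finset ι) (f g : ι → ℝ) : av s (fun x => f x + g x) = av s f + av s g := by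
  unfold av
  rw [sum_add_distrib, add_div]

theorem av_sub (s : Finset ι) (f g : ι → ℝ) : av s (fun x => f x - g x) = av s f - av s g := by
  unfold av
  rw [sum_sub_distrib, sub_div]

theorem av_mul (s : Finset ι) (a : ℝ) (f : ι → ℝ) : av s (fun x => a * f x) = a * av s f := by
  unfold av
  rw [← mul_sum, mul_div_assoc]

theorem av_sum {κ : Type} (s : Finset ι) (t : Finset κ) (f : κ → ι → ℝ) :
    av s (fun x => ∑ i ∈ t, f i x) = ∑ i ∈ t, av s (f i) := by
  unfold av
  rw [sum_comm, sum_div]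

theorem av_mono {s : Finset ι} {f g : ι → ℝ} (h : ∀ x ∈ s, f x ≤ g x) : av s f ≤ av s g := by
  unfold av
  exact div_le_div_of_nonneg_right (sum_le_sum h) (Nat.cast_nonneg _)

theorem av_congr {s : Finset ι} {f g : ι → ℝ} (h : ∀ x ∈ s, f x = g x) : av s f = av s g := by
  unfold av
  rw [sum_congr rfl h]

theorem av_abs (s : Finset ι) (f : ι → ℝ) : |av s f| ≤ av s (fun x => |f x|) := by
  unfold av
  rw [abs_div, Nat.abs_cast]
  exact div_le_div_of_nonneg_right (abs_sum_le_sum_abs _ _) (Nat.cast_nonneg _)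

theorem Ch_nonempty {d n k : ℕ} (hk : k ≤ n) : (Ch d n k).Nonempty := by
  unfold Ch
  rw [Fintype.piFinset_nonempty]
  intro i
  rw [powersetCard_nonempty]
  simpa using hk

theorem pc_nonempty {n k : ℕ} (hk : k ≤ n) : (powersetCard k (univ : Finset (Fin n))).Nonempty := by
  rw [powersetCard_nonempty]
  simpa using hk

/-- the average of a function of one urn -/
theorem av_one (hRES : S_RES) {d n k : ℕ} (hk : k ≤ n) (i : Fin d) (g : Finset (Fin n) → ℝ) :
    av (Ch d n k) (fun S => g (S i)) = av (powersetCard k univ) g := by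
  rw [hRES d n k hk i]
  simp only [Function.update_self]
  exact av_const (Ch_nonempty hk) _

/-- one ring at a matrix of counts -/
theorem PM_cn (hINV : S_INV) {d n k : ℕ} (σ : Equiv.Perm (Fin d)) (F : Mt d → ℝ) (c : Cf d n) :
    PM n k σ F (cn c) = PL k σ F c := by
  classical
  unfold PM
  have h : ∃ c' : Cf d n, cn c' = cn c := ⟨c, rfl⟩
  rw [dif_pos h]
  exact hINV d n k σ F _ _ h.choose_spec

theorem PW_cons {d n k : ℕ} (σ : Equiv.Perm (Fin d)) (w : List (Equiv.Perm (Fin d))) (F : Mt d → ℝ) :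
    PW n k (σ :: w) F = PM n k σ (PW n k w F) := rfl

/-! ### The matrices -/

variable {d : ℕ}

theorem mw_av (l : ℝ) (w : List (Equiv.Perm (Fin d))) (s : Finset ι) :
    ∀ D : ι → Fin d → Fin d → ℝ, (fun i j => av s fun x => mw l w (D x) i j) =
      mw l w (fun i j => av s fun x => D x i j) := by
  induction w with
  | nil => intro D; rfl
  | cons σ w ih =>
    intro D
    have h := ih (fun x => ms l σ (D x))
    show (fun i j => av s fun x => mw l w (ms l σ (D x)) i j) = _
    rw [h]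
    show _ = mw l w (ms l σ (fun i j => av s fun x => D x i j))
    congr 1
    funext i j
    unfold ms
    rw [av_add, av_mul, av_mul]

theorem mw_sub (l : ℝ) (w : List (Equiv.Perm (Fin d))) :
    ∀ B C : Fin d → Fin d → ℝ, mw l w (fun i j => B i j - C i j) =
      fun i j => mw l w B i j - mw l w C i j := by
  induction w with
  | nil => intro B C; rfl
  | cons σ w ih =>
    intro B C
    show mw l w (ms l σ (fun i j => B i j - C i j)) = _
    rw [show ms l σ (fun i j => B i j - C i j) = fun i j => ms l σ B i j - ms l σ C i j by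
      funext i j; unfold ms; ring, ih]
    rfl

theorem mw_zero (l : ℝ) (w : List (Equiv.Perm (Fin d))) : mw l w (fun _ _ => (0 : ℝ)) = fun _ _ => 0 := by
  have h := mw_sub l w (fun _ _ => (0 : ℝ)) (fun _ _ => (0 : ℝ))
  simp only [sub_self] at h
  rw [h]

theorem mw_cst (l x : ℝ) (w : List (Equiv.Perm (Fin d))) : mw l w (fun _ _ => x) = fun _ _ => x := by
  induction w with
  | nil => rfl
  | cons σ w ih =>
    show mw l w (ms l σ (fun _ _ => x)) = _
    rw [show ms l σ (fun _ _ : Fin d => x) = fun _ _ => x by funext i j; unfold ms; ring, ih]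

theorem ms_nf2 {l : ℝ} (h0 : 0 ≤ l) (h1 : l ≤ 1) (σ : Equiv.Perm (Fin d)) (B : Fin d → Fin d → ℝ) :
    nf2 (ms l σ B) ≤ nf2 B := by
  have h2 : nf2 (ms l σ B) ≤ (1 - l) * nf2 B + l * ∑ i, ∑ j, B (σ⁻¹ i) j ^ 2 := by
    unfold nf2
    rw [mul_sum, mul_sum, ← sum_add_distrib]
    refine sum_le_sum fun i _ => ?_
    rw [mul_sum, mul_sum, ← sum_add_distrib]
    refine sum_le_sum fun j _ => ?_
    unfold ms
    nlinarith [mul_nonneg (mul_nonneg h0 (by linarith : 0 ≤ 1 - l)) (sq_nonneg (B i j - B (σ⁻¹ i) j))]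
  have h3 : ∑ i, ∑ j, B (σ⁻¹ i) j ^ 2 = nf2 B := by
    unfold nf2
    exact Equiv.sum_comp (σ⁻¹ : Equiv.Perm (Fin d)) fun i => ∑ j, B i j ^ 2
  rw [h3] at h2
  linarith

theorem mw_nf2 {l : ℝ} (h0 : 0 ≤ l) (h1 : l ≤ 1) (w : List (Equiv.Perm (Fin d))) :
    ∀ B : Fin d → Fin d → ℝ, nf2 (mw l w B) ≤ nf2 B := by
  induction w with
  | nil => intro B; exact le_rfl
  | cons σ w ih =>
    intro B
    exact (ih _).trans (ms_nf2 h0 h1 σ B)

theorem nf2_nonneg (B : Fin d → Fin d → ℝ) : 0 ≤ nf2 B :=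
  sum_nonneg fun _ _ => sum_nonneg fun _ _ => sq_nonneg _

/-- the average of `nf2` of a random matrix -/
theorem av_nf2 {s : Finset ι} (hs : s.Nonempty) (a : Fin d → Fin d → ℝ) (b : ι → Fin d → Fin d → ℝ) :
    av s (fun x => nf2 (fun i j => a i j + b x i j)) =
      nf2 a + 2 * ∑ i, ∑ j, a i j * av s (fun x => b x i j) + av s (fun x => nf2 (b x)) := by
  have h : ∀ x, nf2 (fun i j => a i j + b x i j) =
      (nf2 a + 2 * ∑ i, ∑ j, a i j * b x i j) + nf2 (b x) := by
    intro x
    unfold nf2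
    rw [mul_sum, ← sum_add_distrib, ← sum_add_distrib]
    refine sum_congr rfl fun i _ => ?_
    rw [mul_sum, ← sum_add_distrib, ← sum_add_distrib]
    refine sum_congr rfl fun j _ => ?_
    ring
  rw [show (fun x => nf2 (fun i j => a i j + b x i j)) = fun x =>
    (nf2 a + 2 * ∑ i, ∑ j, a i j * b x i j) + nf2 (b x) from funext h, av_add, av_add, av_const hs,
    av_mul, av_sum]
  congr 3
  refine sum_congr rfl fun i _ => ?_
  rw [av_sum]
  refine sum_congr rfl fun j _ => ?_
  rw [av_mul]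

end Pool.Agent.L7h50.UC
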